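import Pool.Agent.W2helper58.GF.Stm2
import Pool.Agent.H620R2.GaugeR.Seq

/-!
# Project GF, piece Z (`P_zb`)
-/

set_option autoImplicit false

namespace Pool.Agent.W2helper92.GF

open Pool.Agent.NPC Pool.Agent.H622R2 Pool.Agent.H620R2.Gauge Pool.Agent.W2helper58.GF

/-- the first half of a string -/
def hf (l : List Bool) : List Bool := (List.range (l.length / 2)).map fun i => l.getD i false

/-- the second half of a string -/
def hs (l : List Bool) : List Bool :=
  (List.range (l.length / 2)).map fun i => l.getD (l.length / 2 + i) false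

/-- the answer -/
def cmb (z z' : List Bool) : List Bool := if z = [true] ∨ z = [false] then z else z'

theorem hf_append {u v : List Bool} (h : u.length = v.length) : hf (u ++ v) = u := by
  have h1 : (u ++ v).length / 2 = u.length := by rw [List.length_append]; omega
  unfold hf
  rw [h1]
  refine List.ext_getElem (by simp) fun i h2 h3 => ?_
  simp only [List.getElem_map, List.getElem_range]
  rw [List.getD_append _ _ _ _ h3, List.getD_eq_getElem _ _ h3]

theorem hs_append {u v : List Bool} (h : u.length = v.length) : hs (u ++ v) = v := by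
  have h1 : (u ++ v).length / 2 = u.length := by rw [List.length_append]; omega
  unfold hs
  rw [h1]
  refine List.ext_getElem (by simp [h]) fun i h2 h3 => ?_
  simp only [List.getElem_map, List.getElem_range]
  rw [List.getD_append_right _ _ _ _ (by omega), Nat.add_sub_cancel_left,
    List.getD_eq_getElem _ _ h3]

theorem poly_half {α : Type} [TEnc α] {l : α → List Bool} (hl : Poly l) :
    UPoly (fun a => (l a).length / 2) :=
  UPoly.of_le (Poly.div (Poly.length hl) (NPC.Poly.const 2)) (UPoly.length hl)
    fun _ => Nat.div_le_self _ _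

theorem poly_hf {α : Type} [TEnc α] {l : α → List Bool} (hl : Poly l) :
    Poly (fun a => hf (l a)) :=
  NPC.Poly.map (F := fun a i => (l a).getD i false) (poly_half hl).range
    (Poly.getD (hl.comp (Poly.fst Poly.id)) (Poly.snd Poly.id) (NPC.Poly.const false))

theorem poly_hs {α : Type} [TEnc α] {l : α → List Bool} (hl : Poly l) :
    Poly (fun a => hs (l a)) :=
  NPC.Poly.map (F := fun a i => (l a).getD ((l a).length / 2 + i) false) (poly_half hl).range
    (Poly.getD (hl.comp (Poly.fst Poly.id))
      (Poly.add ((poly_half hl).toPoly.comp (Poly.fst Poly.id)) (Poly.snd Poly.id))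
      (NPC.Poly.const false))

/-- counting: if the event `Q` fails only when `P` fails for both halves, and `P` holds for at
least half of the strings, then `Q` holds for at least three quarters of them. -/
theorem card_two {m : ℕ} (P : (Fin m → Bool) → Prop) (Q : (Fin (m + m) → Bool) → Prop)
    (hQ : ∀ u v, ¬ Q (Fin.append u v) ↔ ¬ P u ∧ ¬ P v)
    (hP : (1 : ℝ) / 2 ≤ (Nat.card {w // P w} : ℝ) / 2 ^ m) :
    2 / 3 ≤ (Nat.card {w // Q w} : ℝ) / 2 ^ (m + m) := by
  classical
  have e : {w : Fin (m + m) → Bool // ¬ Q w} ≃ {u : Fin m → Bool // ¬ P u} ×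
      {v : Fin m → Bool // ¬ P v} :=
    (((Fin.appendEquiv m m).subtypeEquiv (p := fun c : (Fin m → Bool) × (Fin m → Bool) =>
      ¬ P c.1 ∧ ¬ P c.2) (q := fun w => ¬ Q w) (fun c => (hQ c.1 c.2).symm)).symm).trans
      (Equiv.subtypeProdEquivProd (p := fun u : Fin m → Bool => ¬ P u)
        (q := fun u : Fin m → Bool => ¬ P u))
  have h3 := Fintype.card_congr e
  rw [Fintype.card_prod] at h3
  have h4 := Fintype.card_subtype_compl (fun w => P w)
  have h5 := Fintype.card_subtype_compl (fun w => Q w)
  have h6 := Fintype.card_subtype_le (fun w => P w)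
  have h7 := Fintype.card_subtype_le (fun w => Q w)
  rw [Fintype.card_fun, Fintype.card_bool, Fintype.card_fin] at h4 h5 h6 h7
  rw [Nat.card_eq_fintype_card] at hP ⊢
  rw [h4, h5] at h3
  have h8 : ((2 ^ (m + m) - Fintype.card {w // Q w} : ℕ) : ℝ) =
      ((2 ^ m - Fintype.card {w // P w} : ℕ) : ℝ) * ((2 ^ m - Fintype.card {w // P w} : ℕ) : ℝ) := by
    exact_mod_cast h3
  rw [Nat.cast_sub h7, Nat.cast_sub h6] at h8
  push_cast at h8
  have h9 : (0 : ℝ) < 2 ^ m := by positivity
  rw [le_div_iff₀ h9] at hP
  rw [pow_add] at h8 ⊢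
  rw [le_div_iff₀ (by positivity)]
  have h10 : ((Fintype.card {w // P w} : ℕ) : ℝ) ≤ 2 ^ m := by exact_mod_cast h6
  nlinarith [mul_self_nonneg ((2 : ℝ) ^ m - Fintype.card {w // P w})]

theorem p_zb : P_zb := by
  rintro A L ⟨V, p, hV, hx⟩
  have hu : Poly (fun y : List Bool => (unpair y).1) := Poly.fst poly_unpair
  have hv : Poly (fun y : List Bool => (unpair y).2) := Poly.snd poly_unpair
  have p1 : Poly (fun y : List Bool => pairBits (hf (unpair y).1) (unpair y).2) :=
    poly_pairBits (poly_hf hu) hv
  have p2 : Poly (fun y : List Bool => pairBits (hs (unpair y).1) (unpair y).2) :=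
    poly_pairBits (poly_hs hu) hv
  have p3 : Poly (fun q : List Bool × List Bool × List Bool => cmb q.2.1 q.2.2) := by
    have h1 : Poly (fun q : List Bool × List Bool × List Bool => q.2.1) :=
      Poly.fst (Poly.snd Poly.id)
    have h2 : Poly (fun q : List Bool × List Bool × List Bool => q.2.2) :=
      Poly.snd (Poly.snd Poly.id)
    have h3 : Poly (fun q : List Bool × List Bool × List Bool =>
        decide (q.2.1 = [true]) || decide (q.2.1 = [false])) :=
      Poly.or (Poly.decide_eq h1 (NPC.Poly.const _)) (Poly.decide_eq h1 (NPC.Poly.const _))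
    refine Poly.ite (h3.congr fun q => ?_) h1 h2
    rw [Bool.decide_or]
  have hW := IsFP.seq (IsFP.comp hV (IsFP.of_poly p1)) hV
    (φ := fun q => pairBits (hs (unpair q.1).1) (unpair q.1).2)
    (ψ := fun q => cmb q.2.1 q.2.2) (p2.comp (Poly.fst Poly.id)) p3
  refine ⟨_, p + p, hW, fun x => ?_⟩
  obtain ⟨h1, h2⟩ := hx x
  rw [Polynomial.eval_add]
  set m := p.eval x.length with hm
  have key : ∀ u v : Fin m → Bool,
      (fun y => (fun q : List Bool × List Bool × List Bool => cmb q.2.1 q.2.2)
        (y, V (pairBits (hf (unpair y).1) (unpair y).2),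
          V ((fun q : List Bool × List Bool => pairBits (hs (unpair q.1).1) (unpair q.1).2)
            (y, V (pairBits (hf (unpair y).1) (unpair y).2)))))
        (pairBits (List.ofFn (Fin.append u v)) x) =
      cmb (V (pairBits (List.ofFn u) x)) (V (pairBits (List.ofFn v) x)) := by
    intro u v
    have hl : (List.ofFn u).length = (List.ofFn v).length := by simp
    simp only [unpair_pairBits, List.ofFn_fin_append, hf_append hl, hs_append hl]
  have hl : ∀ u : Fin m → Bool, (List.ofFn u).length = m := fun u => by simp
  constructor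
  · intro hL
    refine card_two (fun w => V (pairBits (List.ofFn w) x) = [true] ∨
      V (pairBits (List.ofFn w) x) = [false]) _ (fun u v => ?_) h2
    rw [key u v]
    have h3 := (h1 _ (hl u)).2
    have h4 := (h1 _ (hl v)).2
    unfold cmb
    split_ifs with h5
    · rcases h5 with h5 | h5
      · simp [h5]
      · exact absurd hL (h3 h5)
    · constructor
      · intro h6
        refine ⟨h5, ?_⟩
        rintro (h7 | h7)
        · exact h6 h7
        · exact h4 h7 hL
      · rintro ⟨-, h7⟩ h8
        exact h7 (Or.inl h8)
  · intro hL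
    have h5 : Nat.card {w : Fin (m + m) → Bool //
        (fun y => (fun q : List Bool × List Bool × List Bool => cmb q.2.1 q.2.2)
        (y, V (pairBits (hf (unpair y).1) (unpair y).2),
          V ((fun q : List Bool × List Bool => pairBits (hs (unpair q.1).1) (unpair q.1).2)
            (y, V (pairBits (hf (unpair y).1) (unpair y).2)))))
        (pairBits (List.ofFn w) x) = [true]} = 0 := by
      rw [Nat.card_eq_zero]
      left
      constructor
      rintro ⟨w, hw⟩
      obtain ⟨⟨u, v⟩, rfl⟩ := (Fin.appendEquiv m m).surjective w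
      have h6 := key u v
      have h7 : cmb (V (pairBits (List.ofFn u) x)) (V (pairBits (List.ofFn v) x)) = [true] :=
        h6.symm.trans hw
      have h3 := (h1 _ (hl u)).1
      have h4 := (h1 _ (hl v)).1
      unfold cmb at h7
      split_ifs at h7 with h5
      · exact hL (h3 h7)
      · exact hL (h4 h7)
    unfold accPr
    refine le_of_eq_of_le (b := (0 : ℝ)) ?_ (by norm_num)
    rw [div_eq_zero_iff]
    left
    exact_mod_cast h5

end Pool.Agent.W2helper92.GF
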